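import Mathlib
import Pool.Agent.Helper99.RingMain
import Pool.Agent.Helper99.RingFinal

set_option autoImplicit false
open Filter

namespace Pool.Agent.Results.MP_3d42b9_mp.RegularRing87

/-- For every `N ≥ 87`, every non-coalescent limiting central configuration of the `1+N` body
problem is a regular `N`-gon centred at the large body. -/
theorem result :
    ∀ N : ℕ, 87 ≤ N →
    ∀ x : Fin (N + 1) → ℂ,
      (∃ ε : ℕ → ℝ, ∃ q : ℕ → Fin (N + 1) → ℂ,
        (∀ k, 0 < ε k) ∧ Tendsto ε atTop (nhds 0) ∧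
        (∀ k, Function.Injective (q k) ∧
          ∃ lam : ℝ, ∀ i : Fin (N + 1),
            (lam : ℂ) * (q k i -
              (∑ j : Fin (N + 1), (((if j = 0 then (1 : ℝ) else ε k) : ℝ) : ℂ) * q k j)
                / (((1 + (N : ℝ) * ε k) : ℝ) : ℂ)) =
            ∑ j ∈ Finset.univ.erase i,
              ((((if j = 0 then (1 : ℝ) else ε k) / ‖q k i - q k j‖ ^ 3 : ℝ)) : ℂ)
                * (q k i - q k j)) ∧
        Tendsto q atTop (nhds x)) →
      Function.Injective (fun i : Fin N => x i.succ) →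
      ∃ c r : ℂ, r ≠ 0 ∧ ∃ σ : Equiv.Perm (Fin N), ∀ k : Fin N,
        x (σ k).succ = c + r * Complex.exp (2 * (Real.pi : ℂ) * Complex.I * ((k : ℕ) : ℂ) / (N : ℂ)) := by
  intro N hN x hlim hinj
  refine Pool.Agent.Helper99.Ring.final (by omega) ?_ x hlim hinj
  intro θ hmono hr hs hm hc
  exact Pool.Agent.Helper99.Ring.core hN θ hmono hr hs hm hc

end Pool.Agent.Results.MP_3d42b9_mp.RegularRing87
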